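import Mathlib
import Pool.Agent.H86.CMLib.W528.Odd.Final2
import Pool.Agent.H86.CMLib.W528.Tor.Comp

/-!
# Tate classes on the powers of an abelian variety with a place of small or odd toric rank
-/

set_option linter.unusedSectionVars false
set_option linter.all false

namespace Pool.Agent.TH115.Toric

open Module Pool.Agent.H204R3.SP Pool.Agent.H204R3.GP Pool.Agent.W522.U Pool.Agent.W529.Ta
open Pool.Agent.W528.Tor (AltDual exists_SS core)
open Pool.Agent.W528.Odd

noncomputable section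

variable {K : Type} [Field K] [CharZero K] {X : Type} [AddCommGroup X] [Module K X]
  [FiniteDimensional K X] {Γ : Type} [Group Γ] {R : Representation K Γ X} {χ : Γ →* K}

theorem coreProp_small [IsAlgClosed K] (ω : X →ₗ[K] X →ₗ[K] K)
    (hnd : ∀ u, (∀ v, ω u v = 0) → u = 0)
    (hωR : ∀ g u v, ω (R g u) (R g v) = χ g * ω u v) {U : Submodule K X} (hU : SI R U)
    {γ : Γ} (hγ : (R γ - 1) * (R γ - 1) = 0)
    (h0 : U.map (R γ - 1) ≠ ⊥) (hle : finrank K (U.map (R γ - 1)) ≤ 2) :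
    CoreProp R χ U := by
  intro Δ hΔ hUΔ 𝔥 om halt hnd' hsim hbr hconj hsp hlie
  obtain ⟨x, hx, hx0⟩ := exists_ne h0
  have hχ : χ γ = 1 := unip_chi ω hnd hωR γ hγ hx0
  obtain ⟨M, hM0, hMΔ⟩ := exists_pow_mem Δ hΔ γ
  have hM : (M : K) ≠ 0 := Nat.cast_ne_zero.2 hM0
  have hpow := Pool.Agent.W522.U.unip_pow R γ hγ M
  have hnx : (M : K) • (R γ - 1) ∈ lieT R χ :=
    (lieT R χ).smul_mem _ (unip_lieT R χ γ hγ hχ)
  obtain ⟨N, hN, hNx⟩ := hlie _ hnx
  have hN2 : N * N = 0 := by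
    have h3 := sq_res hNx 0 (by
      rw [smul_mul_smul_comm, hγ, smul_zero, zero_smul])
    rw [h3, zero_smul]
  have hrk : finrank K (LinearMap.range N) ≤ 2 := by
    have h1 := rk_res hNx
    unfold rk at h1
    rw [h1]
    have h2 : U.map ((M : K) • (R γ - 1)) = U.map (R γ - 1) := by
      rw [Submodule.map_smul _ _ _ hM]
    rw [h2]
    exact hle
  obtain ⟨a, b, hab, hNi⟩ := exists_SS om halt hnd' (hsp N hN) hN2 hrk
  refine core om (resR R Δ U hUΔ) (χ.comp Δ.subtype) halt hnd' hsim (sIrr_res hU Δ hΔ hUΔ) 𝔥 hbr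
    hconj hsp hab ?_ ?_ (t := ⟨γ ^ M, hMΔ⟩) ?_
  · rw [← hNi]
    intro hN0
    have h1 := hNx ⟨x, hx⟩
    rw [hN0] at h1
    apply hx0
    have h2 : (M : K) • (R γ - 1) x = 0 := h1.symm
    exact (smul_eq_zero.1 h2).resolve_left hM
  · rw [← hNi]
    exact hN
  · rw [← hNi]
    refine LinearMap.ext fun u => Subtype.ext ?_
    change R (γ ^ M) (u : X) = ((u : U) : X) + ((N u : U) : X)
    rw [hNx, hpow]
    rfl

/-- For every strongly irreducible subspace `U` of dimension at least two there is an element `γ`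
of the group with `(γ - 1) ^ 2 = 0` such that the rank of `γ - 1` on `U` is one, or `U` is
self-dual with an alternating pairing and the rank is two, or it is odd and the weak Hodge elements
generate. -/
def HasToricPlaces (R : Representation K Γ X) (χ : Γ →* K) : Prop :=
  ∀ U, SI R U → 2 ≤ finrank K U → ∃ γ : Γ, (R γ - 1) * (R γ - 1) = 0 ∧
    (finrank K (U.map (R γ - 1)) = 1 ∨
      (AltDual R χ U ∧ (finrank K (U.map (R γ - 1)) = 2 ∨
        (Odd (finrank K (U.map (R γ - 1))) ∧ WeakHodgeGenerate R χ))))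

theorem ne_bot_of_pos {U : Submodule K X} (h : 0 < finrank K U) : U ≠ ⊥ := by
  rintro rfl
  rw [finrank_bot] at h
  exact absurd h (lt_irrefl _)

theorem main_toric [IsAlgClosed K] (ω : X →ₗ[K] X →ₗ[K] K)
    (hnd : ∀ u, (∀ v, ω u v = 0) → u = 0)
    (hωR : ∀ g u v, ω (R g u) (R g v) = χ g * ω u v)
    (hcu : HasToricPlaces R χ) (hR2 : LinesNotSelfDual R χ) (hH : TwistFree R χ)
    (hD : DetIndependent R χ) (hss : HasProj R)
    {m : ℕ} (φ : MultilinearMap K (fun _ : Fin m × Fin 2 => X) K) (hφ : IsTate R χ m φ) :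
    φ ∈ Submodule.span K (PT R χ m) := by
  refine main_X3 ω hnd hωR ?_ hss hR2 hH hD φ hφ
  intro U hU h2
  obtain ⟨γ, hγ, hr | ⟨halt, hr | ⟨hodd, hP⟩⟩⟩ := hcu U hU h2
  · exact ⟨γ, hγ, Or.inl hr⟩
  · refine ⟨γ, hγ, Or.inr ⟨?_, halt, ?_⟩⟩
    · exact ne_bot_of_pos (by omega)
    · exact coreProp_small ω hnd hωR hU hγ (ne_bot_of_pos (by omega)) (by omega)
  · refine ⟨γ, hγ, Or.inr ⟨?_, halt, coreProp_odd ω hnd hωR hss hP hU hγ hodd⟩⟩
    exact ne_bot_of_pos hodd.pos

end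

end Pool.Agent.TH115.Toric
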